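import Mathlib

/-!
# Separating sets have Hausdorff dimension at least `D - 1`
-/

set_option autoImplicit false

namespace Pool.Agent.Y921.NB

open Set Filter Topology Module

variable {E : Type*} [NormedAddCommGroup E] [NormedSpace ℝ E] [FiniteDimensional ℝ E]

lemma exists_frontier_segment {S : Set E} {a b : E} (ha : a ∈ interior S) (hb : b ∉ closure S) :
    ∃ z ∈ segment ℝ a b, z ∈ frontier S := by
  by_contra hcon
  push Not at hcon
  have hpre : IsPreconnected (segment ℝ a b) := (convex_segment a b).isPreconnected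
  have h := hpre (interior S) (interior Sᶜ) isOpen_interior isOpen_interior (by
    intro z hz
    have h1 := hcon z hz
    rw [frontier, mem_diff, not_and, not_not] at h1
    by_cases h2 : z ∈ closure S
    · exact Or.inl (h1 h2)
    · right
      rw [interior_compl]
      exact h2) ⟨a, left_mem_segment ℝ a b, ha⟩ ⟨b, right_mem_segment ℝ a b, by
      rw [interior_compl]; exact hb⟩
  obtain ⟨z, _, hz1, hz2⟩ := h
  exact (interior_subset hz2) (interior_subset hz1)

/-- the part of the frontier of `S` in a convex open set which meets the interior and the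
exterior of `S` has Hausdorff dimension at least `dim E - 1` -/
theorem le_dimH_frontier {S V T : Set E} (hV : IsOpen V) (hVc : Convex ℝ V) {a b : E}
    (ha : a ∈ interior S) (haV : a ∈ V) (hb : b ∉ closure S) (hbV : b ∈ V)
    (hT : frontier S ∩ V ⊆ T) : (finrank ℝ E : ENNReal) ≤ dimH T + 1 := by
  classical
  have hab : b - a ≠ 0 := by
    intro h
    have : b = a := sub_eq_zero.1 h
    subst this
    exact hb (subset_closure (interior_subset ha))
  set W : Submodule ℝ E := Submodule.span ℝ {b - a} with hW
  have hWr : finrank ℝ W = 1 := finrank_span_singleton hab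
  have hq : finrank ℝ (E ⧸ W) + 1 = finrank ℝ E := by
    have := Submodule.finrank_quotient_add_finrank W
    rw [hWr] at this
    exact this
  set d := finrank ℝ (E ⧸ W) with hd
  let e : (E ⧸ W) ≃ₗ[ℝ] (Fin d → ℝ) := LinearEquiv.ofFinrankEq _ _ (by simp [hd])
  set π : E →ₗ[ℝ] (Fin d → ℝ) := e.toLinearMap ∘ₗ W.mkQ with hπ
  have hπs : Function.Surjective π := e.surjective.comp (Submodule.mkQ_surjective W)
  have hπv : π (b - a) = 0 := by
    rw [hπ, LinearMap.comp_apply]
    have : W.mkQ (b - a) = 0 := by
      rw [Submodule.mkQ_apply, Submodule.Quotient.mk_eq_zero]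
      exact Submodule.mem_span_singleton_self _
    rw [this, map_zero]
  have hπo : IsOpenMap π := π.isOpenMap_of_finiteDimensional hπs
  -- the set of translations
  set N : Set E := {w | a + w ∈ interior S ∩ V ∧ b + w ∈ (closure S)ᶜ ∩ V} with hN
  have hNo : IsOpen N := by
    have c1 : Continuous (fun w : E => a + w) := by fun_prop
    have c2 : Continuous (fun w : E => b + w) := by fun_prop
    exact ((isOpen_interior.inter hV).preimage c1).inter
      ((isClosed_closure.isOpen_compl.inter hV).preimage c2)
  have h0 : (0 : E) ∈ N := by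
    refine ⟨?_, ?_⟩
    · rw [add_zero]; exact ⟨ha, haV⟩
    · rw [add_zero]; exact ⟨hb, hbV⟩
  have himg : π '' ((fun w => a + w) '' N) ⊆ π '' T := by
    rintro _ ⟨_, ⟨w, hw, rfl⟩, rfl⟩
    obtain ⟨z, hz1, hz2⟩ := exists_frontier_segment hw.1.1 hw.2.1
    have hzV : z ∈ V := hVc.segment_subset hw.1.2 hw.2.2 hz1
    refine ⟨z, hT ⟨hz2, hzV⟩, ?_⟩
    rw [segment_eq_image'] at hz1
    obtain ⟨t, _, rfl⟩ := hz1
    have e1 : b + w - (a + w) = b - a := by abel
    simp only [e1]
    rw [map_add, map_smul, hπv, smul_zero, add_zero]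
  have hopen : IsOpen (π '' ((fun w => a + w) '' N)) :=
    hπo _ ((Homeomorph.addLeft a).isOpenMap _ hNo)
  have hne : (interior (π '' T)).Nonempty := by
    refine ⟨π (a + 0), interior_maximal himg hopen ?_⟩
    exact ⟨_, ⟨0, h0, rfl⟩, rfl⟩
  have hdim : dimH (π '' T) = (d : ENNReal) := by
    rw [Real.dimH_of_nonempty_interior hne]
    simp
  have hlip : dimH (π '' T) ≤ dimH T := by
    have hc : Continuous π := π.continuous_of_finiteDimensional
    have := (LinearMap.toContinuousLinearMap π).lipschitz.dimH_image_le T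
    exact this
  have : (finrank ℝ E : ENNReal) = (d : ENNReal) + 1 := by
    rw [← hq]; push_cast; rfl
  rw [this]
  gcongr
  rw [← hdim]
  exact hlip

end Pool.Agent.Y921.NB
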