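import Pool.Agent.Y921.NB.Pat2
import Pool.Agent.Y921.NB.Sep

/-!
# A chart of the variety of matrices of rank `r`
-/

set_option autoImplicit false

namespace Pool.Agent.Y921.NB

open Matrix Filter Topology Pool.Agent.H838R3.CS

variable {m N r : ℕ}

/-- free positions of the chart: not `(e t, k)` in the first matrix -/
abbrev FP (m N : ℕ) {r : ℕ} (e : Fin r ↪ Fin m) :=
  {x : Pos m r N // ∀ t k, x ≠ Sum.inl (e t, k)}

/-- the normalised entries -/
def d0 (N : ℕ) (e : Fin r ↪ Fin m) : Pos m r N → ℝ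
  | Sum.inl y => if y.1 = e y.2 then 1 else 0
  | Sum.inr _ => 0

open Classical in
/-- extension by the normalised entries -/
noncomputable def ex (e : Fin r ↪ Fin m) (x : FP m N e → ℝ) : Pos m r N → ℝ :=
  fun p => if h : ∀ t k, p ≠ Sum.inl (e t, k) then x ⟨p, h⟩ else d0 N e p

/-- the rows `e` of the first matrix -/
def LA (e : Fin r ↪ Fin m) (f : Pos m r N → ℝ) : Matrix (Fin r) (Fin r) ℝ :=
  (mA f).submatrix e id

/-- the normalised pair -/
noncomputable def psi (e : Fin r ↪ Fin m) (f : Pos m r N → ℝ) : FP m N e → ℝ :=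
  fun p => pk (mA f * (LA e f)⁻¹) (LA e f * mB f) p.1

/-- the product of the extension -/
noncomputable def kap (e : Fin r ↪ Fin m) (x : FP m N e → ℝ) : Matrix (Fin m) (Fin N) ℝ :=
  mA (ex e x) * mB (ex e x)

lemma LA_ex (e : Fin r ↪ Fin m) (x : FP m N e → ℝ) : LA e (ex e x) = 1 := by
  ext t k
  have h : ¬ ∀ t' k', (Sum.inl (e t, k) : Pos m r N) ≠ Sum.inl (e t', k') := by
    push Not
    exact ⟨t, k, rfl⟩
  simp only [LA, mA, Matrix.submatrix_apply, Matrix.of_apply, id, ex, dif_neg h, d0]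
  by_cases htk : t = k
  · subst htk; simp
  · rw [Matrix.one_apply_ne htk, if_neg (fun h => htk (e.injective h))]

lemma submatrix_mul_rows' {s t u : ℕ} (e : Fin s → Fin t) (A : Matrix (Fin t) (Fin u) ℝ)
    (B : Matrix (Fin u) (Fin N) ℝ) : (A * B).submatrix e id = A.submatrix e id * B := by
  ext i j
  simp [Matrix.mul_apply]

lemma submatrix_mul_rows (e : Fin r ↪ Fin m) (A : Matrix (Fin m) (Fin r) ℝ)
    (B : Matrix (Fin r) (Fin N) ℝ) : (A * B).submatrix e id = A.submatrix e id * B := by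
  ext i j
  simp [Matrix.mul_apply]

lemma ex_psi (e : Fin r ↪ Fin m) {f : Pos m r N → ℝ} (hf : (LA e f).det ≠ 0) :
    ex e (psi e f) = pk (mA f * (LA e f)⁻¹) (LA e f * mB f) := by
  funext p
  by_cases h : ∀ t k, p ≠ Sum.inl (e t, k)
  · simp only [ex, dif_pos h, psi]
  · simp only [ex, dif_neg h]
    push Not at h
    obtain ⟨t, k, rfl⟩ := h
    have h1 : (mA f * (LA e f)⁻¹).submatrix e id = 1 := by
      ext a b
      have := congrFun (congrFun (Matrix.mul_nonsing_inv (LA e f) (isUnit_iff_ne_zero.2 hf)) a) b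
      rw [← this]
      simp [Matrix.mul_apply, LA]
    have h2 := congrFun (congrFun h1 t) k
    simp only [Matrix.submatrix_apply, id] at h2
    rw [pk_inl, h2, d0]
    by_cases htk : t = k
    · subst htk; simp
    · rw [Matrix.one_apply_ne htk]
      simp only
      rw [if_neg (fun h => htk (e.injective h))]

lemma kap_psi (e : Fin r ↪ Fin m) {f : Pos m r N → ℝ} (hf : (LA e f).det ≠ 0) :
    kap e (psi e f) = mA f * mB f := by
  rw [kap, ex_psi e hf, mA_pk, mB_pk, Matrix.mul_assoc, ← Matrix.mul_assoc (LA e f)⁻¹,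
    Matrix.nonsing_inv_mul _ (isUnit_iff_ne_zero.2 hf), Matrix.one_mul]

lemma psi_eq (e : Fin r ↪ Fin m) {f : Pos m r N → ℝ} {x : FP m N e → ℝ}
    {R : Matrix (Fin N) (Fin r) ℝ} (hR : (mB (ex e x) * R).det ≠ 0)
    (h : mA f * mB f = kap e x) : (LA e f).det ≠ 0 ∧ psi e f = x := by
  have h1 : LA e f * mB f = mB (ex e x) := by
    have h2 := congrArg (fun M : Matrix (Fin m) (Fin N) ℝ => M.submatrix e id) h
    simp only [kap, submatrix_mul_rows] at h2
    have h3 := LA_ex e x
    unfold LA at h3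
    rw [h3, Matrix.one_mul] at h2
    exact h2
  have h4 : (LA e f).det * (mB f * R).det ≠ 0 := by
    rw [← Matrix.det_mul, ← Matrix.mul_assoc, h1]
    exact hR
  have hd : (LA e f).det ≠ 0 := left_ne_zero_of_mul h4
  have hd2 : (mB f * R).det ≠ 0 := right_ne_zero_of_mul h4
  refine ⟨hd, ?_⟩
  have h5 : mA f * (mB f * R) = mA (ex e x) * LA e f * (mB f * R) := by
    rw [← Matrix.mul_assoc, h, kap, ← h1]
    simp only [Matrix.mul_assoc]
  have h6 : mA f = mA (ex e x) * LA e f := by
    have := congrArg (fun M => M * (mB f * R)⁻¹) h5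
    simp only [Matrix.mul_assoc] at this
    rw [← Matrix.mul_assoc (mB f) R, Matrix.mul_nonsing_inv _ (isUnit_iff_ne_zero.2 hd2)] at this
    simpa using this
  have h7 : mA f * (LA e f)⁻¹ = mA (ex e x) := by
    conv_lhs => rw [h6]
    have hL : LA e f * (LA e f)⁻¹ = 1 := Matrix.mul_nonsing_inv _ (isUnit_iff_ne_zero.2 hd)
    calc mA (ex e x) * LA e f * (LA e (f))⁻¹ = mA (ex e x) * (LA e f * (LA e f)⁻¹) := by
          rw [Matrix.mul_assoc]
      _ = mA (ex e x) := by rw [hL, Matrix.mul_one]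
  funext p
  obtain ⟨p, hp⟩ := p
  simp only [psi, h7, h1]
  have : ex e x p = x ⟨p, hp⟩ := by simp only [ex, dif_pos hp]
  rw [← this]
  rcases p with ⟨i, k⟩ | ⟨k, j⟩ <;> rfl

lemma continuous_ex (e : Fin r ↪ Fin m) : Continuous (ex (N := N) e) := by
  refine continuous_pi fun p => ?_
  by_cases h : ∀ t k, p ≠ Sum.inl (e t, k)
  · simp only [ex, dif_pos h]
    exact continuous_apply _
  · simp only [ex, dif_neg h]
    exact continuous_const

lemma continuous_mA : Continuous (mA (m := m) (N := N) (r := r)) :=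
  continuous_matrix fun _ _ => continuous_apply _

lemma continuous_mB : Continuous (mB (m := m) (N := N) (r := r)) :=
  continuous_matrix fun _ _ => continuous_apply _

lemma continuous_kap (e : Fin r ↪ Fin m) : Continuous (kap (N := N) e) :=
  (continuous_mA.comp (continuous_ex e)).matrix_mul (continuous_mB.comp (continuous_ex e))

lemma contDiff_det {E : Type*} [NormedAddCommGroup E] [NormedSpace ℝ E]
    {F : E → Matrix (Fin r) (Fin r) ℝ} (h : ∀ i j, ContDiff ℝ 1 (fun x => F x i j)) :
    ContDiff ℝ 1 (fun x => (F x).det) := by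
  simp only [Matrix.det_apply']
  refine ContDiff.sum fun σ _ => contDiff_const.mul (contDiff_prod fun i _ => h _ _)

lemma contDiff_apply_pos (p : Pos m r N) : ContDiff ℝ 1 (fun f : Pos m r N → ℝ => f p) :=
  contDiff_apply ℝ ℝ p

lemma contDiff_LA (e : Fin r ↪ Fin m) (i j : Fin r) :
    ContDiff ℝ 1 (fun f : Pos m r N → ℝ => LA e f i j) := contDiff_apply_pos _

lemma contDiff_adj (e : Fin r ↪ Fin m) (i j : Fin r) :
    ContDiff ℝ 1 (fun f : Pos m r N → ℝ => (LA e f).adjugate i j) := by
  simp only [Matrix.adjugate_apply]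
  refine contDiff_det fun a b => ?_
  by_cases h : a = j
  · subst h
    simp only [Matrix.updateRow_self]
    exact contDiff_const
  · simp only [Matrix.updateRow_ne h]
    exact contDiff_LA e a b

lemma contDiffAt_psi (e : Fin r ↪ Fin m) {f : Pos m r N → ℝ} (hf : (LA e f).det ≠ 0) :
    ContDiffAt ℝ 1 (psi e) f := by
  rw [contDiffAt_pi]
  rintro ⟨p, hp⟩
  have hinv : ∀ i j, ContDiffAt ℝ 1 (fun f : Pos m r N → ℝ => (LA e f)⁻¹ i j) f := by
    intro i j
    have h1 : (fun f : Pos m r N → ℝ => (LA e f)⁻¹ i j) =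
        fun f => ((LA e f).det)⁻¹ * (LA e f).adjugate i j := by
      funext f
      rw [Matrix.inv_def, Matrix.smul_apply, Ring.inverse_eq_inv', smul_eq_mul]
    rw [h1]
    exact ((contDiff_det (contDiff_LA e)).contDiffAt.inv hf).mul (contDiff_adj e i j).contDiffAt
  rcases p with ⟨i, k⟩ | ⟨k, j⟩
  · simp only [psi, pk_inl, Matrix.mul_apply]
    refine ContDiffAt.sum fun t _ => ?_
    exact (contDiff_apply_pos (Sum.inl (i, t))).contDiffAt.mul (hinv t k)
  · simp only [psi, pk_inr, Matrix.mul_apply]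
    refine ContDiffAt.sum fun t _ => ?_
    exact (contDiff_LA e k t).contDiffAt.mul (contDiff_apply_pos (Sum.inr (t, j))).contDiffAt

lemma card_FP (e : Fin r ↪ Fin m) : m * r + r * N ≤ Fintype.card (FP m N e) + r * r := by
  classical
  have h1 : Fintype.card (Pos m r N) = m * r + r * N := by simp
  have h2 : Fintype.card (FP m N e) = (Finset.univ.filter fun x : Pos m r N =>
      ∀ t k, x ≠ Sum.inl (e t, k)).card := by
    rw [Fintype.card_subtype]
  have h3 := Finset.card_filter_add_card_filter_not (s := (Finset.univ : Finset (Pos m r N)))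
    (fun x => ∀ t k, x ≠ Sum.inl (e t, k))
  have h4 : (Finset.univ.filter fun x : Pos m r N => ¬ ∀ t k, x ≠ Sum.inl (e t, k)).card ≤ r * r := by
    have : (Finset.univ.filter fun x : Pos m r N => ¬ ∀ t k, x ≠ Sum.inl (e t, k)) ⊆
        Finset.univ.image (fun y : Fin r × Fin r => (Sum.inl (e y.1, y.2) : Pos m r N)) := by
      intro x hx
      simp only [Finset.mem_filter, Finset.mem_univ, true_and] at hx
      push Not at hx
      obtain ⟨t, k, rfl⟩ := hx
      exact Finset.mem_image_of_mem _ (Finset.mem_univ (t, k))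
    calc _ ≤ _ := Finset.card_le_card this
      _ ≤ _ := Finset.card_image_le
      _ = r * r := by simp
  rw [Finset.card_univ, h1] at h3
  omega

end Pool.Agent.Y921.NB
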