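import Pool.Agent.Y921.NB.Chart

/-!
# Boundary matrices are limits of boundary matrices with few zero columns
-/

set_option autoImplicit false

namespace Pool.Agent.Y921.NB

open Matrix Filter Topology Pool.Agent.H838R3.CS

variable {m N r : ℕ}

lemma exists_rows {A : Matrix (Fin m) (Fin r) ℝ} (h : r ≤ A.rank) :
    ∃ e : Fin r ↪ Fin m, (A.submatrix e id).det ≠ 0 := by
  classical
  obtain ⟨κ, a, ha, hspan, hli⟩ := exists_linearIndependent' ℝ (fun i => A i)
  have : Finite κ := Finite.of_injective a ha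
  have : Fintype κ := Fintype.ofFinite κ
  have hr : Fintype.card κ = r := by
    have h1 : Module.finrank ℝ (Submodule.span ℝ (Set.range ((fun i => A i) ∘ a))) =
        Fintype.card κ := finrank_span_eq_card hli
    rw [hspan] at h1
    have h2 : A.rank = Module.finrank ℝ (Submodule.span ℝ (Set.range (fun i => A i))) :=
      A.rank_eq_finrank_span_row
    have h3 : A.rank ≤ r := A.rank_le_width
    omega
  let eq : Fin r ≃ κ := (Fintype.equivFinOfCardEq hr).symm
  refine ⟨⟨a ∘ eq, ha.comp eq.injective⟩, ?_⟩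
  have h4 : LinearIndependent ℝ (fun t : Fin r => (A.submatrix (a ∘ eq) id) t) := by
    have := hli.comp eq eq.injective
    exact this
  have h5 := Matrix.linearIndependent_rows_iff_isUnit.1 h4
  exact isUnit_iff_ne_zero.1 ((Matrix.isUnit_iff_isUnit_det _).1 h5)

/-- prescribed entries -/
def XS (Φ Ψ : Finset (Pos m r N)) : Set (Pos m r N → ℝ) :=
  open Classical in {f | ∀ x ∈ Φ, f x = if x ∈ Ψ then 1 else 0}

lemma dimH_XS (Φ Ψ : Finset (Pos m r N)) :
    dimH (XS Φ Ψ) ≤ ((m * r + r * N - Φ.card : ℕ) : ENNReal) := by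
  classical
  set g : ({x : Pos m r N // x ∉ Φ} → ℝ) → (Pos m r N → ℝ) := fun y x =>
    if h : x ∉ Φ then y ⟨x, h⟩ else if x ∈ Ψ then 1 else 0 with hg
  have hgc : ContDiff ℝ 1 g := by
    rw [contDiff_pi]
    intro x
    by_cases h : x ∉ Φ
    · simp only [hg, dif_pos h]
      exact contDiff_apply ℝ ℝ _
    · simp only [hg, dif_neg h]
      exact contDiff_const
  have hsub : XS Φ Ψ ⊆ Set.range g := by
    intro f hf
    refine ⟨fun x => f x.1, ?_⟩
    funext x
    by_cases h : x ∈ Φ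
    · simp only [hg, not_not.2 h, dite_false]
      exact (hf x h).symm
    · simp only [hg, h, not_false_eq_true, dite_true]
  refine (dimH_mono hsub).trans ((hgc.dimH_range_le).trans ?_)
  rw [Module.finrank_fintype_fun_eq_card]
  have : Fintype.card {x : Pos m r N // x ∉ Φ} = m * r + r * N - Φ.card := by
    rw [Fintype.card_subtype_compl]
    simp
  rw [this]

lemma dimH_piece (e : Fin r ↪ Fin m) (Φ Ψ : Finset (Pos m r N)) :
    dimH (psi e '' (XS Φ Ψ ∩ {f | (LA e f).det ≠ 0})) ≤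
      ((m * r + r * N - Φ.card : ℕ) : ENNReal) := by
  refine (dimH_image_le_of_locally_lipschitzOn ?_).trans
    ((dimH_mono Set.inter_subset_left).trans (dimH_XS Φ Ψ))
  intro f hf
  obtain ⟨K, t, ht, hK⟩ := (contDiffAt_psi e hf.2).exists_lipschitzOnWith
  exact ⟨K, t, mem_nhdsWithin_of_mem_nhds ht, hK⟩

theorem few_zero_columns (hr : 2 ≤ r) {M₀ : Matrix (Fin m) (Fin N) ℝ} (hM₀ : M₀ ∈ Bd m N r)
    (hrank : r ≤ M₀.rank) {U : Set (Matrix (Fin m) (Fin N) ℝ)} (hU : U ∈ 𝓝 M₀) :
    ∃ M ∈ U, M ∈ Bd m N r ∧ r ≤ M.rank ∧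
      ∃ (A : Matrix (Fin m) (Fin r) ℝ) (B : Matrix (Fin r) (Fin N) ℝ), (∀ i k, 0 ≤ A i k) ∧
        (∀ k j, 0 ≤ B k j) ∧ M = A * B ∧ (zc B).card ≤ (r - 1) ^ 2 := by
  classical
  by_contra hcon
  push Not at hcon
  obtain ⟨⟨A₀, B₀, hA₀, hB₀, rfl⟩, hcl⟩ := hM₀
  obtain ⟨e, he⟩ := exists_rows (hrank.trans (Matrix.rank_mul_le_left A₀ B₀))
  obtain ⟨R, hR⟩ := exists_right_inv (hrank.trans (Matrix.rank_mul_le_right A₀ B₀))
  set f₀ : Pos m r N → ℝ := pk A₀ B₀ with hf₀
  have hLA₀ : LA e f₀ = A₀.submatrix e id := by rw [LA, hf₀, mA_pk]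
  have hd₀ : (LA e f₀).det ≠ 0 := by rw [hLA₀]; exact he
  set x₀ := psi e f₀ with hx₀
  -- the ball
  have hY₀ : (mB (ex e x₀) * R).det ≠ 0 := by
    rw [hx₀, ex_psi e hd₀, mB_pk, hf₀, mB_pk, Matrix.mul_assoc, hR, Matrix.mul_one, ← hf₀]
    exact hd₀
  have hn1 : kap e ⁻¹' U ∈ 𝓝 x₀ := by
    apply (continuous_kap e).continuousAt
    rw [hx₀, kap_psi e hd₀, hf₀, mA_pk, mB_pk]
    exact hU
  have hcdet : Continuous (fun x : FP m N e → ℝ => (mB (ex e x) * R).det) :=
    ((continuous_mB.comp (continuous_ex e)).matrix_mul continuous_const).matrix_det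
  have hn2 : ∀ᶠ x in 𝓝 x₀, (mB (ex e x) * R).det ≠ 0 :=
    hcdet.continuousAt.eventually_ne hY₀
  obtain ⟨δ, hδ, hball⟩ := Metric.mem_nhds_iff.1 (inter_mem hn1 hn2)
  set V := Metric.ball x₀ δ with hV
  set S : Set (FP m N e → ℝ) := {x | HasNonnegFactorization r (kap e x)} with hS
  have hSc : IsClosed S := isClosed_hasNonnegFactorization.preimage (continuous_kap e)
  have hpsi₀ : ContinuousAt (psi e) f₀ := (contDiffAt_psi e hd₀).continuousAt
  have hVn : V ∈ 𝓝 x₀ := Metric.ball_mem_nhds x₀ hδ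
  have hdc : Continuous (fun f : Pos m r N → ℝ => (LA e f).det) := by
    have : Continuous (fun f : Pos m r N → ℝ => LA e f) :=
      continuous_matrix fun _ _ => continuous_apply _
    exact this.matrix_det
  have hdn : ∀ᶠ f in 𝓝 f₀, (LA e f).det ≠ 0 := hdc.continuousAt.eventually_ne hd₀
  -- an interior point
  have hint : ∀ f : Pos m r N → ℝ, (LA e f).det ≠ 0 → (∀ p, 0 < f p) → psi e f ∈ interior S := by
    intro f hd hpos
    rw [mem_interior_iff_mem_nhds]
    set G := LA e f with hG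
    have hGu : IsUnit G.det := isUnit_iff_ne_zero.2 hd
    set Θ : (FP m N e → ℝ) → (Pos m r N → ℝ) := fun x =>
      pk (mA (ex e x) * G) (G⁻¹ * mB (ex e x)) with hΘ
    have hΘc : Continuous Θ := by
      refine continuous_pi fun p => ?_
      rcases p with ⟨i, k⟩ | ⟨k, j⟩
      · exact ((continuous_mA.comp (continuous_ex e)).matrix_mul continuous_const).matrix_elem i k
      · exact (continuous_const.matrix_mul (continuous_mB.comp (continuous_ex e))).matrix_elem k j
    have hΘe : Θ (psi e f) = f := by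
      simp only [hΘ]
      rw [ex_psi e hd, mA_pk, mB_pk, Matrix.mul_assoc, ← hG, Matrix.nonsing_inv_mul _ hGu,
        Matrix.mul_one, ← Matrix.mul_assoc, Matrix.nonsing_inv_mul _ hGu, Matrix.one_mul]
      funext p
      rcases p with ⟨i, k⟩ | ⟨k, j⟩ <;> rfl
    have hev : ∀ᶠ x in 𝓝 (psi e f), ∀ p, 0 < Θ x p := by
      refine eventually_all.2 fun p => ?_
      have h1 : Continuous (fun x => Θ x p) := (continuous_apply p).comp hΘc
      refine (h1.continuousAt (x := psi e f)).eventually (lt_mem_nhds ?_)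
      show 0 < Θ (psi e f) p
      rw [hΘe]; exact hpos p
    filter_upwards [hev] with x hx
    refine ⟨mA (ex e x) * G, G⁻¹ * mB (ex e x), fun i k => (hx (Sum.inl (i, k))).le,
      fun k j => (hx (Sum.inr (k, j))).le, ?_⟩
    rw [Matrix.mul_assoc, ← Matrix.mul_assoc G, Matrix.mul_nonsing_inv _ hGu, Matrix.one_mul]
    rfl
  obtain ⟨a, ha, haV⟩ : ∃ a, a ∈ interior S ∧ a ∈ V := by
    have hline : Tendsto (fun t : ℝ => f₀ + fun _ => t) (𝓝[>] 0) (𝓝 f₀) := by
      have hc : Continuous (fun t : ℝ => f₀ + fun _ : Pos m r N => t) := by fun_prop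
      have := (hc.tendsto 0).mono_left (nhdsWithin_le_nhds (s := Set.Ioi (0:ℝ)))
      have h0 : (f₀ + fun _ : Pos m r N => (0:ℝ)) = f₀ := by funext p; simp
      rwa [h0] at this
    obtain ⟨t, ⟨h1, h2⟩, h3⟩ := (((hline.eventually hdn).and
      ((hpsi₀.tendsto.comp hline).eventually hVn)).and self_mem_nhdsWithin).exists
    have ht0 : (0:ℝ) < t := h3
    refine ⟨_, hint _ h1 ?_, h2⟩
    intro p
    have : 0 ≤ f₀ p := by
      rcases p with ⟨i, k⟩ | ⟨k, j⟩
      · exact hA₀ i k
      · exact hB₀ k j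
    simp only [Pi.add_apply]
    linarith
  -- an exterior point
  obtain ⟨b, hb, hbV⟩ : ∃ b, b ∉ closure S ∧ b ∈ V := by
    have hgood := good_of_rank_eq hrank hcl
    rw [mem_closure_iff_frequently] at hgood
    have hcpk : Continuous (fun p : Matrix (Fin m) (Fin r) ℝ × Matrix (Fin r) (Fin N) ℝ =>
        pk p.1 p.2) := by
      refine continuous_pi fun p => ?_
      rcases p with ⟨i, k⟩ | ⟨k, j⟩
      · exact continuous_fst.matrix_elem i k
      · exact continuous_snd.matrix_elem k j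
    have ht : Tendsto (fun p : Matrix (Fin m) (Fin r) ℝ × Matrix (Fin r) (Fin N) ℝ =>
        pk p.1 p.2) (𝓝 (A₀, B₀)) (𝓝 f₀) := hcpk.tendsto _
    obtain ⟨p, hp1, hp2, hp3⟩ := (hgood.and_eventually ((ht.eventually hdn).and
      ((hpsi₀.tendsto.comp ht).eventually hVn))).exists
    refine ⟨_, ?_, hp3⟩
    rw [hSc.closure_eq]
    intro hmem
    apply hp1
    have h1 : HasNonnegFactorization r (kap e (psi e (pk p.1 p.2))) := hmem
    rw [kap_psi e hp2, mA_pk, mB_pk] at h1
    exact h1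
  -- the covering
  set I := {y : Finset (Pos m r N) × Finset (Pos m r N) // r ^ 2 + 2 ≤ y.1.card} with hI
  set T : Set (FP m N e → ℝ) := ⋃ y : I, psi e '' (XS y.1.1 y.1.2 ∩ {f | (LA e f).det ≠ 0}) with hT
  have hcover : frontier S ∩ V ⊆ T := by
    rintro x ⟨hx1, hx2⟩
    have hxS : x ∈ S := hSc.frontier_subset hx1
    have hxU : kap e x ∈ U := (hball hx2).1
    have hxd : (mB (ex e x) * R).det ≠ 0 := (hball hx2).2
    have hsub : (kap e x).submatrix e id = mB (ex e x) := by
      rw [kap, submatrix_mul_rows]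
      have := LA_ex e x
      unfold LA at this
      rw [this, Matrix.one_mul]
    have hdet : ((kap e x).submatrix e id * R).det ≠ 0 := by rw [hsub]; exact hxd
    have hBd : kap e x ∈ Bd m N r := by
      refine ⟨hxS, ?_⟩
      have h1 : x ∈ closure Sᶜ := by
        rw [frontier_eq_closure_inter_closure] at hx1
        exact hx1.2
      have h2 := image_closure_subset_closure_image (continuous_kap e) (Set.mem_image_of_mem _ h1)
      refine closure_mono ?_ h2
      rintro _ ⟨y, hy, rfl⟩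
      exact ⟨rank_mul_le_inner _ _, hy⟩
    have hrk : r ≤ (kap e x).rank := by
      have h1 : ((kap e x).submatrix e id * R).rank = r := by
        rw [Matrix.rank_of_isUnit _ ((Matrix.isUnit_iff_isUnit_det _).2 (isUnit_iff_ne_zero.2 hdet))]
        simp
      calc r = ((kap e x).submatrix e id * R).rank := h1.symm
        _ ≤ ((kap e x).submatrix e id).rank := Matrix.rank_mul_le_left _ _
        _ ≤ (kap e x).rank := by
            have h2 : (kap e x).submatrix e id =
                ((1 : Matrix (Fin m) (Fin m) ℝ).submatrix e id) * kap e x := by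
              rw [← submatrix_mul_rows', Matrix.one_mul]
            rw [h2]
            exact Matrix.rank_mul_le_right _ _
    obtain ⟨f, hf, Φ, hΦ, hΦf⟩ := pattern hr e hdet hxS (q := (r - 1) ^ 2 + 1) (by omega)
      (fun A B hA hB hAB => Nat.succ_le_of_lt (hcon _ hxU hBd hrk A B hA hB hAB))
    obtain ⟨h1, h2⟩ := psi_eq e hxd hf
    have hcard : r ^ 2 + 2 ≤ Φ.card := by
      refine le_trans ?_ hΦ
      obtain ⟨s, rfl⟩ : ∃ s, r = s + 1 := ⟨r - 1, by omega⟩
      simp only [Nat.add_sub_cancel]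
      nlinarith
    refine Set.mem_iUnion.2 ⟨⟨(Φ, Φ.filter fun p => f p = 1), hcard⟩, f, ⟨?_, h1⟩, h2⟩
    intro p hp
    rcases hΦf p hp with h | h
    · rw [h, if_neg]
      simp [h]
    · rw [h, if_pos]
      simp [h, hp]
  have hdimT : dimH T ≤ ((m * r + r * N - (r ^ 2 + 2) : ℕ) : ENNReal) := by
    rw [hT, dimH_iUnion]
    refine iSup_le fun y => (dimH_piece e _ _).trans ?_
    have : m * r + r * N - y.1.1.card ≤ m * r + r * N - (r ^ 2 + 2) := by
      have := y.2
      omega
    exact_mod_cast this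
  have hmain := le_dimH_frontier (T := T) Metric.isOpen_ball (convex_ball x₀ δ) ha haV hb hbV hcover
  have h1 : ((Fintype.card (FP m N e) : ℕ) : ENNReal) ≤
      ((m * r + r * N - (r ^ 2 + 2) + 1 : ℕ) : ENNReal) := by
    rw [Module.finrank_fintype_fun_eq_card] at hmain
    refine hmain.trans ?_
    push_cast
    gcongr
    exact_mod_cast hdimT
  have h2 : Fintype.card (FP m N e) ≤ m * r + r * N - (r ^ 2 + 2) + 1 := by exact_mod_cast h1
  have h3 := card_FP (N := N) e
  have hm : r ≤ m := by simpa using Fintype.card_le_of_embedding e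
  have hN : r ≤ N := hrank.trans (Matrix.rank_le_width _)
  have h4 : r * r ≤ m * r := Nat.mul_le_mul_right r hm
  have h5 : r * r ≤ r * N := Nat.mul_le_mul_left r hN
  have h6 : r ^ 2 = r * r := sq r
  have h7 : 4 ≤ r * r := by nlinarith
  omega

end Pool.Agent.Y921.NB
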