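import Pool.Agent.Y921.NB.Few

/-!
# Column stabilization with `r ^ 2 - r + 2` columns
-/

set_option autoImplicit false

namespace Pool.Agent.Y921.NB

open Matrix Filter Topology Pool.Agent.H838R3.CS

variable {m n r : ℕ}

/-- deletion from a good factorization with `r + 1` positive columns -/
lemma delete_of_positive (hr : 0 < r) {N : Matrix (Fin m) (Fin (n + 1)) ℝ}
    (hN : N ∈ Bd m (n + 1) r) (hrank : r ≤ N.rank) {A : Matrix (Fin m) (Fin r) ℝ}
    {B : Matrix (Fin r) (Fin (n + 1)) ℝ} (hA : ∀ i k, 0 ≤ A i k) (hB : ∀ k j, 0 ≤ B k j)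
    (hAB : N = A * B) (hc : (zc B).card + (r + 1) ≤ n + 1) :
    ∃ j, deleteColumn N j ∈ zariskiClosure (Bd m n r) := by
  classical
  subst hAB
  set P : Finset (Fin (n + 1)) := Finset.univ \ zc B with hP
  have hPc : r + 1 ≤ P.card := by
    rw [hP, Finset.card_sdiff_of_subset (Finset.subset_univ _), Finset.card_univ, Fintype.card_fin]
    omega
  have hpos : ∀ j ∈ P, ∀ l, 0 < B l j := by
    intro j hj l
    have h1 : j ∉ zc B := (Finset.mem_sdiff.1 hj).2
    refine lt_of_le_of_ne (hB l j) fun h => h1 (mem_zc.2 ⟨l, h.symm⟩)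
  obtain ⟨j0, hj0⟩ : P.Nonempty := Finset.card_pos.1 (by omega)
  set S : Finset (Fin n) := Finset.univ.filter fun k => j0.succAbove k ∈ P with hS
  have hcard : r ≤ S.card := by
    have hsub : P ⊆ insert j0 (S.image j0.succAbove) := by
      intro x hx
      rcases Fin.eq_self_or_eq_succAbove j0 x with rfl | ⟨k, rfl⟩
      · exact Finset.mem_insert_self _ _
      · exact Finset.mem_insert_of_mem (Finset.mem_image_of_mem _ (by simp [hS, hx]))
    have h1 := Finset.card_le_card hsub
    have h2 := Finset.card_insert_le j0 (S.image j0.succAbove)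
    have h3 := Finset.card_image_le (s := S) (f := j0.succAbove)
    omega
  obtain ⟨e0⟩ : Nonempty (Fin r ↪ S) := by
    apply Function.Embedding.nonempty_of_card_le
    simpa using hcard
  set e : Fin r ↪ Fin n := e0.trans (Function.Embedding.subtype _) with he
  have heS : ∀ k, j0.succAbove (e k) ∈ P := by
    intro k
    have : (e k) ∈ S := (e0 k).2
    exact (Finset.mem_filter.1 this).2
  refine ⟨j0, main_good hA hB (good_of_rank_eq hrank hN.2) (j0 := j0) (e := e)
    (T := Finset.univ) ⟨⟨0, hr⟩, Finset.mem_univ _⟩ ?_ ?_⟩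
  · intro l
    simp [hpos j0 hj0 l]
  · intro k l
    simp [hpos _ (heS k) l]

lemma exists_delete_Bd' (hn : r * (r - 1) + 1 ≤ n) {M : Matrix (Fin m) (Fin (n + 1)) ℝ}
    (hM : M ∈ Bd m (n + 1) r) : ∃ j, deleteColumn M j ∈ zariskiClosure (Bd m n r) := by
  rcases Nat.eq_zero_or_pos r with hr | hr
  · subst hr
    exfalso
    have h1 := hM.2
    rw [mem_closure_iff_frequently] at h1
    obtain ⟨N, hN1, hN2⟩ := h1.exists
    apply hN2
    have hN0 : N = 0 := by
      by_contra hne
      have := rank_pos_of_ne_zero hne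
      omega
    rw [hN0]
    exact ⟨0, 0, by simp, by simp, by simp⟩
  by_cases hz : ∃ i l, M i l = 0
  · obtain ⟨i, l, hil⟩ := hz
    have hn1 : 1 ≤ n := by omega
    obtain ⟨j, hj⟩ : ∃ j : Fin (n + 1), j ≠ l := by
      have : Nontrivial (Fin (n + 1)) := Fin.nontrivial_iff_two_le.2 (by omega)
      exact exists_ne l
    obtain ⟨k, hk⟩ := Fin.exists_succAbove_eq (x := l) (y := j) hj.symm
    refine ⟨j, ?_⟩
    intro p hp
    apply hp
    apply mem_Bd_of_zero hr (i := i) (l := k)
    · obtain ⟨A, B, hA, hB, rfl⟩ := hM.1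
      refine ⟨A, deleteColumn B j, hA, fun k l => hB _ _, ?_⟩
      ext a b
      simp [deleteColumn, Matrix.mul_apply]
    · show M i (j.succAbove k) = 0
      rw [hk]; exact hil
  · push Not at hz
    have hpos : ∀ i j, 0 < M i j := fun i j =>
      lt_of_le_of_ne (hM.1.nonneg i j) (hz i j).symm
    have hm : r < m := lt_of_mem_Bd_pos hM hpos
    have hn' : r < n + 1 := by
      obtain ⟨s, rfl⟩ : ∃ s, r = s + 1 := ⟨r - 1, by omega⟩
      simp only [Nat.add_sub_cancel] at hn
      nlinarith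
    by_contra hcon
    push Not at hcon
    have hcl := mem_closure_full hm hn' hM
    rw [mem_closure_iff_frequently] at hcl
    have hev1 : ∀ᶠ N in 𝓝 M, ∀ i j, 0 < N i j := isOpen_pos.mem_nhds hpos
    have hev2 : ∀ᶠ N in 𝓝 M, ∀ j, deleteColumn N j ∉ zariskiClosure (Bd m n r) := by
      refine eventually_all.2 fun j => ?_
      have := (isClosed_zariskiClosure (Bd m n r)).isOpen_compl.preimage
        (continuous_deleteColumn (m := m) j)
      exact this.mem_nhds (hcon j)
    obtain ⟨N, ⟨hN1, hN2⟩, hN3, hN4⟩ := (hcl.and_eventually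
      (hev1.eventually_nhds.and hev2.eventually_nhds)).exists
    rcases Nat.lt_or_ge r 2 with hr2 | hr2
    · -- `r = 1`
      obtain rfl : r = 1 := by omega
      obtain ⟨A, B, hA, hB, hAB⟩ := hN1.1
      have hz0 : zc B = ∅ := by
        rw [Finset.eq_empty_iff_forall_notMem]
        intro j hj
        obtain ⟨l, hl⟩ := mem_zc.1 hj
        have h1 := hN3.self_of_nhds ⟨0, by omega⟩ j
        rw [hAB, Matrix.mul_apply, Fin.sum_univ_one] at h1
        have h2 : l = 0 := Subsingleton.elim _ _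
        rw [← h2, hl, mul_zero] at h1
        exact lt_irrefl _ h1
      obtain ⟨j, hj⟩ := delete_of_positive one_pos hN1 hN2 hA hB hAB (by rw [hz0]; simp; omega)
      exact hN4.self_of_nhds j hj
    · obtain ⟨N', hN'1, hN'2, hN'3, A, B, hA, hB, hAB, hc⟩ :=
        few_zero_columns hr2 hN1 hN2 hN4
      obtain ⟨j, hj⟩ := delete_of_positive hr hN'2 hN'3 hA hB hAB (by
        obtain ⟨s, rfl⟩ : ∃ s, r = s + 1 := ⟨r - 1, by omega⟩
        simp only [Nat.add_sub_cancel] at hn hc
        nlinarith)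
      exact hN'1 j hj

theorem main' (hn : r * (r - 1) + 1 ≤ n) {M : Matrix (Fin m) (Fin (n + 1)) ℝ}
    (hM : M ∈ algebraicBoundary m (n + 1) r) :
    ∃ j, deleteColumn M j ∈ algebraicBoundary m n r := by
  unfold algebraicBoundary at hM ⊢
  rw [topologicalBoundary_eq] at hM ⊢
  by_contra hcon
  push Not at hcon
  have hp : ∀ j : Fin (n + 1), ∃ p : MvPolynomial (Fin m × Fin n) ℝ,
      (∀ N ∈ Bd m n r, MvPolynomial.eval (fun ij => N ij.1 ij.2) p = 0) ∧
        MvPolynomial.eval (fun ij => deleteColumn M j ij.1 ij.2) p ≠ 0 := by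
    intro j
    have := hcon j
    simp only [zariskiClosure, Set.mem_ofPred_eq] at this
    push Not at this
    exact this
  choose p hp1 hp2 using hp
  set P : MvPolynomial (Fin m × Fin (n + 1)) ℝ :=
    ∏ j, MvPolynomial.rename (fun ik : Fin m × Fin n => (ik.1, j.succAbove ik.2)) (p j) with hP
  have hPe : ∀ N : Matrix (Fin m) (Fin (n + 1)) ℝ,
      MvPolynomial.eval (fun ij => N ij.1 ij.2) P =
        ∏ j, MvPolynomial.eval (fun ij => deleteColumn N j ij.1 ij.2) (p j) := by
    intro N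
    rw [hP, map_prod]
    refine Finset.prod_congr rfl fun j _ => ?_
    rw [MvPolynomial.eval_rename]
    rfl
  have h0 := hM P (by
    intro N hN
    rw [hPe]
    obtain ⟨j, hj⟩ := exists_delete_Bd' hn hN
    exact Finset.prod_eq_zero (Finset.mem_univ j) (hj (p j) (hp1 j)))
  rw [hPe] at h0
  obtain ⟨j, _, hj⟩ := Finset.prod_eq_zero_iff.1 h0
  exact hp2 j hj

end Pool.Agent.Y921.NB
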