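import Pool.Agent.Y921.NB.Final

/-!
# With `r + 1` columns no column can be deleted
-/

set_option autoImplicit false

namespace Pool.Agent.Y921.NB

open Matrix Filter Topology Pool.Agent.H838R3.CS

variable {m n r : ℕ}

/-- four-cycle plus twice the identity, with a positive combination of the all-one matrix -/
def cyc (r : ℕ) : Matrix (Fin (r + 1)) (Fin (r + 1)) ℝ := Matrix.of fun i j =>
  if (i : ℕ) < 4 then
    (if (j : ℕ) < 4 ∧ ((j : ℕ) = i ∨ (j : ℕ) = (i + 1) % 4) then 1 else 0)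
  else (if i = j then 1 else 0)

/-- kernel vector -/
def kv (r : ℕ) : Fin (r + 1) → ℝ := fun j =>
  if (j : ℕ) = 0 then 1 else if (j : ℕ) = 1 then -1 else if (j : ℕ) = 2 then 1 else
    if (j : ℕ) = 3 then -1 else 0

/-- the path -/
noncomputable def pth (r : ℕ) (t : ℝ) : Matrix (Fin (r + 1)) (Fin (r + 1)) ℝ :=
  (1 - t) • cyc r + t • Matrix.of fun _ _ => (1 : ℝ)

lemma sum_four (hr : 3 ≤ r) (g : Fin (r + 1) → ℝ) (hg : ∀ j : Fin (r + 1), 4 ≤ (j : ℕ) → g j = 0) :
    ∑ j, g j = g ⟨0, by omega⟩ + g ⟨1, by omega⟩ + g ⟨2, by omega⟩ + g ⟨3, by omega⟩ := by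
  classical
  have h1 : ∑ j, g j = ∑ j ∈ ({⟨0, by omega⟩, ⟨1, by omega⟩, ⟨2, by omega⟩, ⟨3, by omega⟩} :
      Finset (Fin (r + 1))), g j := by
    symm
    apply Finset.sum_subset (Finset.subset_univ _)
    intro j _ hj
    apply hg
    simp only [Finset.mem_insert, Finset.mem_singleton, Fin.ext_iff] at hj
    omega
  rw [h1, Finset.sum_insert, Finset.sum_insert, Finset.sum_insert, Finset.sum_singleton]
  · ring
  · simp
  · simp
  · simp

lemma cyc_kv (hr : 3 ≤ r) : cyc r *ᵥ kv r = 0 := by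
  ext i
  simp only [Matrix.mulVec, dotProduct, Pi.zero_apply]
  rw [sum_four hr]
  · by_cases hi : (i : ℕ) < 4
    · have h4 : (i : ℕ) = 0 ∨ (i : ℕ) = 1 ∨ (i : ℕ) = 2 ∨ (i : ℕ) = 3 := by omega
      rcases h4 with h | h | h | h <;> simp [cyc, kv, h]
    · simp only [cyc, Matrix.of_apply, if_neg hi, kv, Fin.ext_iff]
      have h0 : ¬ (i : ℕ) = 0 := by omega
      have h1 : ¬ (i : ℕ) = 1 := by omega
      have h2 : ¬ (i : ℕ) = 2 := by omega
      have h3 : ¬ (i : ℕ) = 3 := by omega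
      simp [h0, h1, h2, h3]
  · intro j hj
    have h0 : ¬ (j : ℕ) = 0 := by omega
    have h1 : ¬ (j : ℕ) = 1 := by omega
    have h2 : ¬ (j : ℕ) = 2 := by omega
    have h3 : ¬ (j : ℕ) = 3 := by omega
    simp [kv, h0, h1, h2, h3]

lemma one_kv (hr : 3 ≤ r) : (Matrix.of fun (_ _ : Fin (r + 1)) => (1 : ℝ)) *ᵥ kv r = 0 := by
  ext i
  simp only [Matrix.mulVec, dotProduct, Pi.zero_apply, Matrix.of_apply]
  rw [sum_four hr]
  · simp [kv]
  · intro j hj
    have h0 : ¬ (j : ℕ) = 0 := by omega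
    have h1 : ¬ (j : ℕ) = 1 := by omega
    have h2 : ¬ (j : ℕ) = 2 := by omega
    have h3 : ¬ (j : ℕ) = 3 := by omega
    simp [kv, h0, h1, h2, h3]

lemma rank_pth (hr : 3 ≤ r) (t : ℝ) : (pth r t).rank ≤ r := by
  have h0 : pth r t *ᵥ kv r = 0 := by
    rw [pth, Matrix.add_mulVec, Matrix.smul_mulVec, Matrix.smul_mulVec, cyc_kv hr, one_kv hr]
    simp
  by_contra hcon
  push Not at hcon
  have h1 : (pth r t).rank = r + 1 := le_antisymm (by simpa using (pth r t).rank_le_width) hcon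
  have h2 : Function.Injective (pth r t).mulVecLin := by
    have h3 := LinearMap.finrank_range_add_finrank_ker (pth r t).mulVecLin
    have h4 : Module.finrank ℝ (LinearMap.range (pth r t).mulVecLin) = r + 1 := h1
    rw [h4] at h3
    simp only [Module.finrank_fintype_fun_eq_card, Fintype.card_fin] at h3
    rw [← LinearMap.ker_eq_bot]
    exact Submodule.finrank_eq_zero.1 (by omega)
  have h3 : kv r = 0 := h2 (by simp [h0])
  have h4 := congrFun h3 ⟨0, by omega⟩
  simp [kv] at h4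

lemma not_nnf_cyc : ¬ HasNonnegFactorization r (cyc r) := by
  rintro ⟨A, B, hA, hB, hAB⟩
  have hdiag : ∀ i, cyc r i i = 1 := by
    intro i
    simp only [cyc, Matrix.of_apply]
    split_ifs with h1 h2 h2 <;> simp_all
  have hex : ∀ i, ∃ k, 0 < A i k * B k i := by
    intro i
    by_contra hcon
    push Not at hcon
    have h1 := hdiag i
    rw [hAB, Matrix.mul_apply] at h1
    have h2 : ∑ k, A i k * B k i ≤ 0 := Finset.sum_nonpos fun k _ => hcon k
    linarith
  choose k hk using hex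
  obtain ⟨i, j, hij, hkij⟩ := Fintype.exists_ne_map_eq_of_card_lt k (by simp)
  have hpos : ∀ i j, k i = k j → 0 < cyc r i j := by
    intro i j h
    rw [hAB, Matrix.mul_apply]
    have h1 : 0 < A i (k i) := by
      rcases (hA i (k i)).lt_or_eq with h1 | h1
      · exact h1
      · have := hk i; rw [← h1, zero_mul] at this; exact absurd this (lt_irrefl _)
    have h2 : 0 < B (k j) j := by
      rcases (hB (k j) j).lt_or_eq with h1 | h1
      · exact h1
      · have := hk j; rw [← h1, mul_zero] at this; exact absurd this (lt_irrefl _)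
    rw [← h] at h2
    calc 0 < A i (k i) * B (k i) j := mul_pos h1 h2
      _ ≤ ∑ x, A i x * B x j := Finset.single_le_sum (f := fun x => A i x * B x j)
          (fun x _ => mul_nonneg (hA _ _) (hB _ _)) (Finset.mem_univ _)
  have h1 := hpos i j hkij
  have h2 := hpos j i hkij.symm
  have hij' : (i : ℕ) ≠ j := fun h => hij (Fin.ext h)
  simp only [cyc, Matrix.of_apply] at h1 h2
  split_ifs at h1 h2 <;> simp_all <;> omega

lemma nnf_one (hr : 1 ≤ r) : HasNonnegFactorization r (Matrix.of fun (_ _ : Fin (r + 1)) => (1 : ℝ)) := by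
  have h1 : HasNonnegFactorization 1 (Matrix.of fun (_ _ : Fin (r + 1)) => (1 : ℝ)) := by
    refine ⟨Matrix.of fun _ _ => 1, Matrix.of fun _ _ => 1, fun _ _ => ?_, fun _ _ => ?_, ?_⟩
    · simp
    · simp
    · ext i j; simp [Matrix.mul_apply]
  exact h1.mono hr

lemma cyc_nonneg (i j : Fin (r + 1)) : 0 ≤ cyc r i j := by
  simp only [cyc, Matrix.of_apply]
  split_ifs <;> norm_num

lemma exists_positive_boundary (hr : 3 ≤ r) :
    ∃ M ∈ Bd (r + 1) (r + 1) r, ∀ i j, 0 < M i j := by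
  set K : Set ℝ := {t | 0 ≤ t ∧ t ≤ 1 ∧ HasNonnegFactorization r (pth r t)} with hK
  have hc : Continuous (pth r) := by
    unfold pth
    fun_prop
  have hKc : IsClosed K := by
    have h1 : IsClosed {t : ℝ | HasNonnegFactorization r (pth r t)} :=
      isClosed_hasNonnegFactorization.preimage hc
    exact isClosed_Ici.inter (isClosed_Iic.inter h1)
  have hK1 : (1 : ℝ) ∈ K := by
    refine ⟨zero_le_one, le_rfl, ?_⟩
    have : pth r 1 = Matrix.of fun (_ _ : Fin (r + 1)) => (1 : ℝ) := by simp [pth]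
    rw [this]
    exact nnf_one (by omega)
  have hbdd : BddBelow K := ⟨0, fun t ht => ht.1⟩
  set t := sInf K with ht
  have htK : t ∈ K := hKc.csInf_mem ⟨1, hK1⟩ hbdd
  have ht0 : 0 < t := by
    rcases htK.1.lt_or_eq with h | h
    · exact h
    · exfalso
      have h1 := htK.2.2
      rw [← h] at h1
      have h2 : pth r 0 = cyc r := by simp [pth]
      rw [h2] at h1
      exact not_nnf_cyc h1
  refine ⟨pth r t, ⟨htK.2.2, ?_⟩, ?_⟩
  · have h1 : Tendsto (pth r) (𝓝[<] t) (𝓝 (pth r t)) :=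
      (hc.tendsto t).mono_left nhdsWithin_le_nhds
    refine mem_closure_of_tendsto h1 ?_
    have h2 : Set.Ioo 0 t ∈ 𝓝[<] t := Ioo_mem_nhdsLT ht0
    filter_upwards [h2] with s hs
    refine ⟨rank_pth hr s, fun hn => ?_⟩
    have h3 : s ∈ K := ⟨hs.1.le, (hs.2.le.trans htK.2.1), hn⟩
    exact absurd (csInf_le hbdd h3) (not_le.2 hs.2)
  · intro i j
    have h1 := cyc_nonneg i j
    have h2 := htK.2.1
    simp only [pth, Matrix.add_apply, Matrix.smul_apply, Matrix.of_apply, smul_eq_mul, mul_one]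
    have h3 : 0 ≤ (1 - t) * cyc r i j := mul_nonneg (by linarith) h1
    linarith

lemma not_mem_of_pos {M : Matrix (Fin m) (Fin r) ℝ} (hM : ∀ i j, 0 < M i j) :
    M ∉ zariskiClosure (Bd m r r) := by
  intro h
  have h1 := h (∏ ij : Fin m × Fin r, MvPolynomial.X ij) (by
    intro N hN
    rw [map_prod]
    have h2 : ∃ i j, N i j = 0 := by
      by_contra hcon
      push Not at hcon
      have hpos : ∀ i j, 0 < N i j := fun i j => lt_of_le_of_ne (hN.1.nonneg i j) (hcon i j).symm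
      have h3 := hN.2
      rw [mem_closure_iff_frequently] at h3
      obtain ⟨N', ⟨_, h4⟩, h5⟩ := (h3.and_eventually (isOpen_pos.mem_nhds hpos)).exists
      apply h4
      have h5' : ∀ i j, 0 < N' i j := h5
      refine ⟨N', 1, fun i j => (h5' i j).le, fun k j => ?_, by simp⟩
      by_cases h : k = j
      · subst h; simp
      · simp [Matrix.one_apply_ne h]
    obtain ⟨i, j, hij⟩ := h2
    exact Finset.prod_eq_zero (Finset.mem_univ (i, j)) (by simp [hij]))
  rw [map_prod] at h1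
  obtain ⟨ij, _, hij⟩ := Finset.prod_eq_zero_iff.1 h1
  have := hM ij.1 ij.2
  simp only [MvPolynomial.eval_X] at hij
  exact this.ne' hij

theorem lower (hr : 3 ≤ r) : ∃ M ∈ topologicalBoundary (r + 1) (r + 1) r, (∀ i j, 0 < M i j) ∧
    ∀ i₀, deleteColumn M i₀ ∉ algebraicBoundary (r + 1) r r := by
  obtain ⟨M, hM, hpos⟩ := exists_positive_boundary hr
  refine ⟨M, ?_, hpos, fun i₀ h => ?_⟩
  · rw [topologicalBoundary_eq]; exact hM
  · unfold algebraicBoundary at h
    rw [topologicalBoundary_eq] at h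
    exact not_mem_of_pos (M := deleteColumn M i₀) (fun i j => hpos _ _) h

/-- structure of the boundary -/
theorem few (hr : 2 ≤ r) (hm : r < m) (hn : r < n) : topologicalBoundary m n r ⊆
    closure {M ∈ topologicalBoundary m n r | ∃ (A : Matrix (Fin m) (Fin r) ℝ)
      (B : Matrix (Fin r) (Fin n) ℝ), (∀ i k, 0 ≤ A i k) ∧ (∀ k j, 0 ≤ B k j) ∧ M = A * B ∧
        {j | ∃ l, B l j = 0}.ncard ≤ (r - 1) ^ 2} := by
  rw [topologicalBoundary_eq]
  intro M hM
  have h1 := mem_closure_full hm hn hM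
  refine closure_minimal ?_ isClosed_closure h1
  rintro N ⟨hN1, hN2⟩
  rw [mem_closure_iff_nhds]
  intro U hU
  obtain ⟨N', h2, h3, _, A, B, hA, hB, hAB, hc⟩ := few_zero_columns hr hN1 hN2 hU
  refine ⟨N', h2, h3, A, B, hA, hB, hAB, ?_⟩
  have : {j | ∃ l, B l j = 0} = (zc B : Set (Fin n)) := by
    ext j; simp [mem_zc]
  rw [this, Set.ncard_coe_finset]
  exact hc

end Pool.Agent.Y921.NB
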