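import Pool.Agent.H838R3.CSFinal

/-!
# Zero patterns of nonnegative factorizations with few zeros
-/

set_option autoImplicit false

namespace Pool.Agent.Y921.NB

open Matrix Filter Topology Pool.Agent.H838R3.CS

variable {m N r : ℕ}

/-- positions of the entries of a pair `(A, B)` -/
abbrev Pos (m r N : ℕ) := (Fin m × Fin r) ⊕ (Fin r × Fin N)

/-- first matrix -/
def mA (f : Pos m r N → ℝ) : Matrix (Fin m) (Fin r) ℝ := Matrix.of fun i k => f (Sum.inl (i, k))

/-- second matrix -/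
def mB (f : Pos m r N → ℝ) : Matrix (Fin r) (Fin N) ℝ := Matrix.of fun k j => f (Sum.inr (k, j))

/-- the pair as a function on positions -/
def pk (A : Matrix (Fin m) (Fin r) ℝ) (B : Matrix (Fin r) (Fin N) ℝ) : Pos m r N → ℝ :=
  fun x => match x with
    | Sum.inl y => A y.1 y.2
    | Sum.inr y => B y.1 y.2

@[simp] lemma pk_inl (A : Matrix (Fin m) (Fin r) ℝ) (B : Matrix (Fin r) (Fin N) ℝ)
    (i : Fin m) (k : Fin r) : pk A B (Sum.inl (i, k)) = A i k := rfl

@[simp] lemma pk_inr (A : Matrix (Fin m) (Fin r) ℝ) (B : Matrix (Fin r) (Fin N) ℝ)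
    (k : Fin r) (j : Fin N) : pk A B (Sum.inr (k, j)) = B k j := rfl

@[simp] lemma mA_pk (A : Matrix (Fin m) (Fin r) ℝ) (B : Matrix (Fin r) (Fin N) ℝ) :
    mA (pk A B) = A := by ext i k; rfl

@[simp] lemma mB_pk (A : Matrix (Fin m) (Fin r) ℝ) (B : Matrix (Fin r) (Fin N) ℝ) :
    mB (pk A B) = B := by ext i k; rfl

/-- number of zeros of the second matrix -/
noncomputable def zB (B : Matrix (Fin r) (Fin N) ℝ) : ℕ :=
  open Classical in (Finset.univ.filter fun x : Fin r × Fin N => B x.1 x.2 = 0).card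

/-- columns with a zero -/
noncomputable def zc (B : Matrix (Fin r) (Fin N) ℝ) : Finset (Fin N) :=
  open Classical in Finset.univ.filter fun j => ∃ l, B l j = 0

lemma mem_zc {B : Matrix (Fin r) (Fin N) ℝ} {j : Fin N} : j ∈ zc B ↔ ∃ l, B l j = 0 := by
  classical
  simp [zc]

lemma exists_minimal_fact {M : Matrix (Fin m) (Fin N) ℝ} (h : HasNonnegFactorization r M) :
    ∃ (A : Matrix (Fin m) (Fin r) ℝ) (B : Matrix (Fin r) (Fin N) ℝ),
      (∀ i k, 0 ≤ A i k) ∧ (∀ k j, 0 ≤ B k j) ∧ M = A * B ∧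
      ∀ (A' : Matrix (Fin m) (Fin r) ℝ) (B' : Matrix (Fin r) (Fin N) ℝ),
        (∀ i k, 0 ≤ A' i k) → (∀ k j, 0 ≤ B' k j) → M = A' * B' → zB B ≤ zB B' := by
  classical
  have hex : ∃ c, ∃ (A : Matrix (Fin m) (Fin r) ℝ) (B : Matrix (Fin r) (Fin N) ℝ),
      (∀ i k, 0 ≤ A i k) ∧ (∀ k j, 0 ≤ B k j) ∧ M = A * B ∧ zB B = c := by
    obtain ⟨A, B, hA, hB, hAB⟩ := h
    exact ⟨_, A, B, hA, hB, hAB, rfl⟩
  obtain ⟨A, B, hA, hB, hAB, hc⟩ := Nat.find_spec hex
  refine ⟨A, B, hA, hB, hAB, fun A' B' hA' hB' hAB' => ?_⟩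
  rw [hc]
  exact Nat.find_min' hex ⟨A', B', hA', hB', hAB', rfl⟩

/-- for a factorization with the smallest number of zeros of `B`: if the column `k` of `A` is
positive, every column of `B` with a zero has a zero in row `k` -/
lemma zero_of_positive {M : Matrix (Fin m) (Fin N) ℝ}
    {A : Matrix (Fin m) (Fin r) ℝ} {B : Matrix (Fin r) (Fin N) ℝ}
    (hA : ∀ i k, 0 ≤ A i k) (hB : ∀ k j, 0 ≤ B k j) (hAB : M = A * B)
    (hmin : ∀ (A' : Matrix (Fin m) (Fin r) ℝ) (B' : Matrix (Fin r) (Fin N) ℝ),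
        (∀ i k, 0 ≤ A' i k) → (∀ k j, 0 ≤ B' k j) → M = A' * B' → zB B ≤ zB B')
    {k : Fin r} (hk : ∀ i, 0 < A i k) {l : Fin r} {j : Fin N} (hl : B l j = 0) : B k j = 0 := by
  classical
  by_contra hkj
  have hkj' : 0 < B k j := lt_of_le_of_ne (hB k j) (Ne.symm hkj)
  have hlk : l ≠ k := by rintro rfl; exact hkj hl
  set s : Fin m → ℝ := fun i => ∑ l' ∈ Finset.univ.erase k, A i l' with hs
  obtain ⟨t, ht, ht0⟩ : ∃ t : ℝ, (∀ i, 0 ≤ A i k - t * s i) ∧ 0 < t := by
    have hev : ∀ i, ∀ᶠ t : ℝ in 𝓝[>] 0, 0 ≤ A i k - t * s i := by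
      intro i
      have hc : Continuous (fun t : ℝ => A i k - t * s i) := by fun_prop
      have := (hc.tendsto 0).mono_left (nhdsWithin_le_nhds (s := Set.Ioi (0:ℝ)))
      rw [zero_mul, sub_zero] at this
      exact (this.eventually (lt_mem_nhds (hk i))).mono fun _ h => le_of_lt h
    obtain ⟨t, h1, h2⟩ := ((eventually_all.2 hev).and self_mem_nhdsWithin).exists
    exact ⟨t, h1, h2⟩
  set A' : Matrix (Fin m) (Fin r) ℝ := Matrix.of fun i k' => if k' = k then A i k - t * s i else A i k'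
    with hA'
  set B' : Matrix (Fin r) (Fin N) ℝ := Matrix.of fun l' j' => if l' = k then B k j' else
    B l' j' + t * B k j' with hB'
  have hprod : M = A' * B' := by
    rw [hAB]
    ext i j'
    rw [Matrix.mul_apply, Matrix.mul_apply, ← Finset.add_sum_erase _ _ (Finset.mem_univ k),
      ← Finset.add_sum_erase (a := k) (f := fun x => A' i x * B' x j') _ (Finset.mem_univ k)]
    have e1 : ∑ x ∈ Finset.univ.erase k, A' i x * B' x j' =
        ∑ x ∈ Finset.univ.erase k, A i x * B x j' + t * s i * B k j' := by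
      rw [hs, Finset.mul_sum, Finset.sum_mul, ← Finset.sum_add_distrib]
      refine Finset.sum_congr rfl fun x hx => ?_
      have hxk : x ≠ k := (Finset.mem_erase.1 hx).1
      simp only [hA', hB', Matrix.of_apply, if_neg hxk]
      ring
    rw [e1]
    simp only [hA', hB', Matrix.of_apply, if_true]
    ring
  have hlt : zB B' < zB B := by
    unfold zB
    apply Finset.card_lt_card
    rw [Finset.ssubset_iff_of_subset]
    · refine ⟨(l, j), by simp [hl], ?_⟩
      simp only [Finset.mem_filter, Finset.mem_univ, true_and, hB', Matrix.of_apply, if_neg hlk, hl,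
        zero_add]
      exact (mul_pos ht0 hkj').ne'
    · rintro ⟨a, b⟩ hab
      simp only [Finset.mem_filter, Finset.mem_univ, true_and, hB', Matrix.of_apply] at hab ⊢
      split_ifs at hab with h
      · rw [h]; exact hab
      · have h1 := hB a b
        have h2 := mul_nonneg ht0.le (hB k b)
        linarith
  have hge := hmin A' B' ?_ ?_ hprod
  · omega
  · intro i k'
    simp only [hA', Matrix.of_apply]
    split_ifs
    · exact ht i
    · exact hA i k'
  · intro l' j'
    simp only [hB', Matrix.of_apply]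
    split_ifs
    · exact hB k j'
    · exact add_nonneg (hB l' j') (mul_nonneg ht0.le (hB k j'))

end Pool.Agent.Y921.NB
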