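import Pool.Agent.Y921.NB.Pat

/-!
# Many prescribed entries
-/

set_option autoImplicit false

namespace Pool.Agent.Y921.NB

open Matrix Filter Topology Pool.Agent.H838R3.CS

variable {m N r : ℕ}

theorem pattern (hr : 2 ≤ r) (e : Fin r ↪ Fin m) {M : Matrix (Fin m) (Fin N) ℝ}
    {R : Matrix (Fin N) (Fin r) ℝ} (hM : (M.submatrix e id * R).det ≠ 0)
    (hnn : HasNonnegFactorization r M) {q : ℕ} (hq : 1 ≤ q)
    (hz : ∀ (A : Matrix (Fin m) (Fin r) ℝ) (B : Matrix (Fin r) (Fin N) ℝ), (∀ i k, 0 ≤ A i k) →
      (∀ k j, 0 ≤ B k j) → M = A * B → q ≤ (zc B).card) :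
    ∃ f : Pos m r N → ℝ, mA f * mB f = M ∧ ∃ Φ : Finset (Pos m r N), 2 * r + q ≤ Φ.card ∧
      ∀ x ∈ Φ, f x = 0 ∨ f x = 1 := by
  classical
  obtain ⟨A, B, hA, hB, hAB, hmin⟩ := exists_minimal_fact hnn
  have hcard := hz A B hA hB hAB
  set G := A.submatrix e id with hG
  have hdet : G.det ≠ 0 := by
    intro h
    apply hM
    have : M.submatrix e id * R = G * (B * R) := by
      rw [hAB, hG, ← Matrix.mul_assoc]
      congr 1
    rw [this, Matrix.det_mul, h, zero_mul]
  have hcol : ∀ k, ∃ i, 0 < A i k := by
    intro k
    by_contra hcon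
    push Not at hcon
    apply hdet
    apply Matrix.det_eq_zero_of_column_eq_zero k
    intro t
    exact le_antisymm (hcon (e t)) (hA _ _)
  choose i' hi' using hcol
  by_cases hcase : ∀ k, ∃ i, A i k = 0
  · choose i0 hi0 using hcase
    have hl : ∀ j : zc B, ∃ l, B l j = 0 := fun j => mem_zc.1 j.2
    choose l hl using hl
    refine ⟨pk (Matrix.of fun i k => A i k / A (i' k) k)
      (Matrix.of fun k j => A (i' k) k * B k j), ?_, ?_⟩
    · rw [mA_pk, mB_pk, hAB]
      ext i j
      rw [Matrix.mul_apply, Matrix.mul_apply]
      refine Finset.sum_congr rfl fun k _ => ?_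
      simp only [Matrix.of_apply]
      have := (hi' k).ne'
      field_simp
    · set g : Fin r ⊕ (Fin r ⊕ zc B) → Pos m r N := fun x => match x with
        | Sum.inl k => Sum.inl (i0 k, k)
        | Sum.inr (Sum.inl k) => Sum.inl (i' k, k)
        | Sum.inr (Sum.inr j) => Sum.inr (l j, j) with hg
      have hginj : Function.Injective g := by
        rintro (k | k | j) (k₂ | k₂ | j₂) h <;> simp only [hg, Sum.inl.injEq, Sum.inr.injEq,
          Prod.mk.injEq, reduceCtorEq] at h
        · rw [h.2]
        · exfalso
          obtain ⟨h1, rfl⟩ := h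
          have := hi0 k
          rw [h1] at this
          exact (hi' k).ne' this
        · exfalso
          obtain ⟨h1, rfl⟩ := h
          have := hi0 k
          rw [← h1] at this
          exact (hi' k).ne' this
        · rw [h.2]
        · rw [Subtype.ext h.2]
      refine ⟨Finset.univ.image g, ?_, ?_⟩
      · rw [Finset.card_image_of_injective _ hginj, Finset.card_univ]
        simp only [Fintype.card_sum, Fintype.card_fin, Fintype.card_coe]
        omega
      · intro x hx
        obtain ⟨y, _, rfl⟩ := Finset.mem_image.1 hx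
        rcases y with k | k | j
        · left
          simp only [hg, pk_inl, Matrix.of_apply, hi0, zero_div]
        · right
          simp only [hg, pk_inl, Matrix.of_apply]
          exact div_self (hi' k).ne'
        · left
          simp only [hg, pk_inr, Matrix.of_apply, hl, mul_zero]
  · push Not at hcase
    obtain ⟨k0, hk0⟩ := hcase
    have hk0' : ∀ i, 0 < A i k0 := fun i => lt_of_le_of_ne (hA i k0) (hk0 i).symm
    have hz0 : ∀ l j, B l j = 0 → B k0 j = 0 := fun l j h =>
      zero_of_positive hA hB hAB hmin hk0' h
    have hGG : G * G⁻¹ = 1 := Matrix.mul_nonsing_inv _ (isUnit_iff_ne_zero.2 hdet)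
    have hGG' : G⁻¹ * G = 1 := Matrix.nonsing_inv_mul _ (isUnit_iff_ne_zero.2 hdet)
    obtain ⟨s, hs⟩ : ∃ s, G⁻¹ k0 s ≠ 0 := by
      by_contra hcon
      push Not at hcon
      have h1 := congrFun (congrFun hGG' k0) k0
      rw [Matrix.mul_apply, Matrix.one_apply_eq] at h1
      simp [hcon] at h1
    obtain ⟨k1, hk1⟩ : ∃ k1 : Fin r, k1 ≠ k0 := by
      have : Nontrivial (Fin r) := Fin.nontrivial_iff_two_le.2 hr
      exact exists_ne k0
    obtain ⟨j1, hj1⟩ : (zc B).Nonempty := Finset.card_pos.1 (by omega)
    set c : Fin r → ℝ := fun l => G⁻¹ l s with hc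
    set A₂ : Matrix (Fin m) (Fin r) ℝ := Matrix.of fun i k => if k = k0 then ∑ l, A i l * c l else
      A i k / A (i' k) k with hA₂
    set B₂ : Matrix (Fin r) (Fin N) ℝ := Matrix.of fun k j => if k = k0 then (c k0)⁻¹ * B k0 j else
      A (i' k) k * (B k j - c k * ((c k0)⁻¹ * B k0 j)) with hB₂
    have hB₂0 : ∀ j ∈ zc B, B₂ k0 j = 0 := by
      intro j hj
      obtain ⟨l, hl⟩ := mem_zc.1 hj
      simp only [hB₂, Matrix.of_apply, if_true, hz0 l j hl, mul_zero]
    set x1 : Pos m r N := if h : ∃ i, A i k1 = 0 then Sum.inl (h.choose, k1) else Sum.inr (k1, j1)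
      with hx1
    have hx1z : pk A₂ B₂ x1 = 0 := by
      rw [hx1]
      split_ifs with h
      · simp only [pk_inl, hA₂, Matrix.of_apply, if_neg hk1, h.choose_spec, zero_div]
      · push Not at h
        obtain ⟨l, hl⟩ := mem_zc.1 hj1
        have h1 : B k1 j1 = 0 := zero_of_positive hA hB hAB hmin
          (fun i => lt_of_le_of_ne (hA i k1) (h i).symm) hl
        simp only [pk_inr, hB₂, Matrix.of_apply, if_neg hk1, h1, hz0 l j1 hl, mul_zero, sub_zero]
    refine ⟨pk A₂ B₂, ?_, ?_⟩
    · rw [mA_pk, mB_pk, hAB]
      ext i j
      rw [Matrix.mul_apply, Matrix.mul_apply, ← Finset.add_sum_erase _ _ (Finset.mem_univ k0),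
        ← Finset.add_sum_erase (a := k0) (f := fun x => A i x * B x j) _ (Finset.mem_univ k0)]
      have e1 : ∑ x ∈ Finset.univ.erase k0, A₂ i x * B₂ x j =
          ∑ x ∈ Finset.univ.erase k0, A i x * B x j -
            (∑ x ∈ Finset.univ.erase k0, A i x * c x) * ((c k0)⁻¹ * B k0 j) := by
        rw [Finset.sum_mul, ← Finset.sum_sub_distrib]
        refine Finset.sum_congr rfl fun x hx => ?_
        have hxk : x ≠ k0 := (Finset.mem_erase.1 hx).1
        simp only [hA₂, hB₂, Matrix.of_apply, if_neg hxk]
        have := (hi' x).ne'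
        field_simp
      rw [e1]
      have e2 : A₂ i k0 = A i k0 * c k0 + ∑ x ∈ Finset.univ.erase k0, A i x * c x := by
        simp only [hA₂, Matrix.of_apply, if_true]
        rw [← Finset.add_sum_erase _ _ (Finset.mem_univ k0)]
      rw [e2]
      simp only [hB₂, Matrix.of_apply, if_true]
      have hck : c k0 ≠ 0 := hs
      field_simp
      ring
    · set g : Fin r ⊕ (Fin r ⊕ zc B) → Pos m r N := fun x => match x with
        | Sum.inl t => Sum.inl (e t, k0)
        | Sum.inr (Sum.inl k) => if k = k0 then x1 else Sum.inl (i' k, k)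
        | Sum.inr (Sum.inr j) => Sum.inr (k0, j) with hg
      have hx1a : ∀ i, x1 ≠ Sum.inl (i, k0) := by
        intro i h
        rw [hx1] at h
        split_ifs at h with h'
        · simp only [Sum.inl.injEq, Prod.mk.injEq] at h
          exact hk1 h.2
      have hx1b : ∀ j, x1 ≠ Sum.inr (k0, j) := by
        intro j h
        rw [hx1] at h
        split_ifs at h with h'
        · simp only [Sum.inr.injEq, Prod.mk.injEq] at h
          exact hk1 h.1
      have hx1c : ∀ k, x1 ≠ Sum.inl (i' k, k) := by
        intro k h
        rw [hx1] at h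
        split_ifs at h with h'
        · simp only [Sum.inl.injEq, Prod.mk.injEq] at h
          have h2 := h'.choose_spec
          rw [h.1, h.2] at h2
          exact (hi' k).ne' h2
      have hginj : Function.Injective g := by
        rintro (t | k | j) (t₂ | k₂ | j₂) h <;> simp only [hg] at h
        · simp only [Sum.inl.injEq, Prod.mk.injEq, and_true] at h
          rw [e.injective h]
        · split_ifs at h with h1
          · exact absurd h.symm (hx1a _)
          · simp only [Sum.inl.injEq, Prod.mk.injEq] at h
            exact absurd h.2.symm h1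
        · simp at h
        · split_ifs at h with h1
          · exact absurd h (hx1a _)
          · simp only [Sum.inl.injEq, Prod.mk.injEq] at h
            exact absurd h.2 h1
        · split_ifs at h with h1 h2 h2
          · rw [h1, h2]
          · exact absurd h (hx1c _)
          · exact absurd h.symm (hx1c _)
          · simp only [Sum.inl.injEq, Prod.mk.injEq] at h
            rw [h.2]
        · split_ifs at h with h1
          · exact absurd h (hx1b _)
        · simp at h
        · split_ifs at h with h1
          · exact absurd h.symm (hx1b _)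
        · simp only [Sum.inr.injEq, Prod.mk.injEq, true_and] at h
          rw [Subtype.ext h]
      refine ⟨Finset.univ.image g, ?_, ?_⟩
      · rw [Finset.card_image_of_injective _ hginj, Finset.card_univ]
        simp only [Fintype.card_sum, Fintype.card_fin, Fintype.card_coe]
        omega
      · intro x hx
        obtain ⟨y, _, rfl⟩ := Finset.mem_image.1 hx
        rcases y with t | k | j
        · simp only [hg, pk_inl, hA₂, Matrix.of_apply, if_true]
          have h1 := congrFun (congrFun hGG t) s
          rw [Matrix.mul_apply] at h1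
          have h2 : ∑ l, A (e t) l * c l = (1 : Matrix (Fin r) (Fin r) ℝ) t s := h1
          rw [h2]
          by_cases hts : t = s
          · right; rw [hts, Matrix.one_apply_eq]
          · left; rw [Matrix.one_apply_ne hts]
        · by_cases h : k = k0
          · left
            simp only [hg, if_pos h]
            exact hx1z
          · right
            simp only [hg, if_neg h, pk_inl, hA₂, Matrix.of_apply]
            exact div_self (hi' k).ne'
        · left
          simp only [hg, pk_inr]
          exact hB₂0 j j.2

end Pool.Agent.Y921.NB
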